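import Pool.Agent.Helper19.RD.Stmts9

/-! Project RD, row PAR of `rd8_rows` (MP_b7477f_nt): sizes of the parameters. -/

set_option autoImplicit false

namespace Pool.Agent.Helper19.RD

open Finset Pool.Agent.Helper18.RD

namespace P84

/-- polynomials in `s` against `exp (c s)` -/
theorem m1 (B κ c : ℝ) (hB : 0 < B) (hκ : 0 < κ) (hc : 0 < c) :
    ∀ᶠ s : ℝ in Filter.atTop, B * (1 + s ^ 2) ^ κ ≤ Real.exp (c * s) := by
  have h1 := tendsto_rpow_mul_exp_neg_mul_atTop_nhds_zero (2 * κ) c hc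
  have hB2 : 0 < B * (2 : ℝ) ^ κ := mul_pos hB (Real.rpow_pos_of_pos (by norm_num) κ)
  have h2 : ∀ᶠ s : ℝ in Filter.atTop, s ^ (2 * κ) * Real.exp (-c * s) < 1 / (B * (2 : ℝ) ^ κ) :=
    h1.eventually_lt_const (by positivity)
  filter_upwards [h2, Filter.eventually_ge_atTop (1 : ℝ)] with s hs hs1
  have hs0 : 0 ≤ s := by linarith
  have h3 : (1 + s ^ 2) ^ κ ≤ (2 * s ^ 2) ^ κ :=
    Real.rpow_le_rpow (by positivity) (by nlinarith) hκ.le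
  have h4 : (2 * s ^ 2) ^ κ = (2 : ℝ) ^ κ * s ^ (2 * κ) := by
    rw [Real.mul_rpow (by norm_num) (by positivity), Real.rpow_mul hs0]
    norm_num
  have h5 : s ^ (2 * κ) * Real.exp (-c * s) * (B * (2 : ℝ) ^ κ) ≤ 1 := by
    rw [lt_div_iff₀ hB2] at hs
    exact hs.le
  have h6 : Real.exp (-c * s) * Real.exp (c * s) = 1 := by
    rw [← Real.exp_add, neg_mul, neg_add_cancel, Real.exp_zero]
  calc B * (1 + s ^ 2) ^ κ ≤ B * ((2 : ℝ) ^ κ * s ^ (2 * κ)) := by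
        rw [← h4]
        exact mul_le_mul_of_nonneg_left h3 hB.le
    _ = B * ((2 : ℝ) ^ κ * s ^ (2 * κ)) * (Real.exp (-c * s) * Real.exp (c * s)) := by
        rw [h6, mul_one]
    _ = (s ^ (2 * κ) * Real.exp (-c * s) * (B * (2 : ℝ) ^ κ)) * Real.exp (c * s) := by ring
    _ ≤ 1 * Real.exp (c * s) := mul_le_mul_of_nonneg_right h5 (Real.exp_pos _).le
    _ = Real.exp (c * s) := one_mul _

theorem tend : Filter.Tendsto (fun N : ℕ => Real.sqrt (Real.log N)) Filter.atTop Filter.atTop :=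
  Real.tendsto_sqrt_atTop.comp (Real.tendsto_log_atTop.comp tendsto_natCast_atTop_atTop)

end P84

open P84 in
theorem st_PAR : ST_PAR := by
  intro A κ τ hA hκ hτ
  have hev : ∀ᶠ s : ℝ in Filter.atTop, (1000000 : ℝ) ≤ s ∧ A ≤ s ∧
      (401 * A) * (1 + s ^ 2) ^ (2 : ℝ) ≤ Real.exp (τ / 40100 * s) ∧
      A * (1 + s ^ 2) ^ κ ≤ Real.exp (1 / 100000 * s) ∧
      9624 * (1 + s ^ 2) ^ (1 : ℝ) ≤ Real.exp (1 / 100000 * s) ∧
      A * (1 + s ^ 2) ^ κ ≤ Real.exp (τ * s) := by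
    filter_upwards [Filter.eventually_ge_atTop (1000000 : ℝ), Filter.eventually_ge_atTop A,
      m1 (401 * A) 2 (τ / 40100) (by positivity) (by norm_num) (by positivity),
      m1 A κ (1 / 100000) hA hκ (by norm_num), m1 9624 1 (1 / 100000) (by norm_num) (by norm_num)
      (by norm_num), m1 A κ τ hA hκ hτ] with s h1 h2 h3 h4 h5 h6
    exact ⟨h1, h2, h3, h4, h5, h6⟩
  obtain ⟨N0, hN0⟩ := Filter.eventually_atTop.1 (tend.eventually hev)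
  refine ⟨N0, fun N hN => ?_⟩
  obtain ⟨h1, h2, h3, h4, h5, h6⟩ := hN0 N hN
  unfold KN zN xN eN
  have hs2 : Real.sqrt (Real.log N) ^ 2 = Real.log N := Real.sq_sqrt (Real.log_natCast_nonneg N)
  generalize Real.sqrt (Real.log N) = s at *
  rw [← hs2]
  have hlog : 0 < Real.log N := by rw [← hs2]; positivity
  have hNpos : (0 : ℝ) < N := by
    rcases Nat.eq_zero_or_pos N with h | h
    · rw [h] at hlog; simp at hlog
    · exact_mod_cast h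
  have hN1 : 1 ≤ N := by exact_mod_cast hNpos
  have hNe : ∀ y : ℝ, (N : ℝ) ^ y = Real.exp (s ^ 2 * y) := by
    intro y
    rw [Real.rpow_def_of_pos hNpos, hs2]
  have hs0 : 0 < s := by linarith
  -- K
  have hKu : ((⌈400 * s⌉₊ : ℕ) : ℝ) ≤ 400 * s + 1 := (Nat.ceil_lt_add_one (by positivity)).le
  have hKl : 400 * s ≤ ((⌈400 * s⌉₊ : ℕ) : ℝ) := Nat.le_ceil _
  have hKu' : ((⌈400 * s⌉₊ : ℕ) : ℝ) ≤ 401 * s := by linarith
  -- z
  have hzl : Real.exp (s / 40) ≤ ((⌈Real.exp (s / 40)⌉₊ : ℕ) : ℝ) := Nat.le_ceil _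
  have hzu : ((⌈Real.exp (s / 40)⌉₊ : ℕ) : ℝ) ≤ Real.exp (s / 40) + 1 :=
    (Nat.ceil_lt_add_one (Real.exp_pos _).le).le
  have he1 : (1 : ℝ) < Real.exp (s / 40) := by
    rw [Real.one_lt_exp_iff]; positivity
  have hexp1 : (2 : ℝ) ≤ Real.exp 1 := by
    have := Real.add_one_le_exp (1 : ℝ)
    linarith
  have hzu' : ((⌈Real.exp (s / 40)⌉₊ : ℕ) : ℝ) ≤ Real.exp (s / 40 + 1) := by
    rw [Real.exp_add]
    nlinarith [Real.exp_pos (s / 40)]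
  have hz2 : 2 ≤ ⌈Real.exp (s / 40)⌉₊ := by
    have h : (1 : ℝ) < ((⌈Real.exp (s / 40)⌉₊ : ℕ) : ℝ) := lt_of_lt_of_le he1 hzl
    have h' : 1 < ⌈Real.exp (s / 40)⌉₊ := by exact_mod_cast h
    omega
  -- x
  have hxu : ((⌊(N : ℝ) ^ (1 / 10 : ℝ)⌋₊ : ℕ) : ℝ) ≤ (N : ℝ) ^ (1 / 10 : ℝ) :=
    Nat.floor_le (by positivity)
  have hxl : (N : ℝ) ^ (1 / 11 : ℝ) ≤ ((⌊(N : ℝ) ^ (1 / 10 : ℝ)⌋₊ : ℕ) : ℝ) := by
    have e1 : (N : ℝ) ^ (1 / 10 : ℝ) < ((⌊(N : ℝ) ^ (1 / 10 : ℝ)⌋₊ : ℕ) : ℝ) + 1 :=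
      Nat.lt_floor_add_one _
    have e2 : (N : ℝ) ^ (1 / 11 : ℝ) + 1 ≤ (N : ℝ) ^ (1 / 10 : ℝ) := by
      rw [hNe, hNe]
      have e3 : Real.exp (s ^ 2 * (1 / 11) + 1) ≤ Real.exp (s ^ 2 * (1 / 10)) :=
        Real.exp_le_exp.2 (by nlinarith)
      have e4 : (1 : ℝ) ≤ Real.exp (s ^ 2 * (1 / 11)) := Real.one_le_exp (by positivity)
      rw [Real.exp_add] at e3
      nlinarith
    linarith
  have hzx : ((⌈Real.exp (s / 40)⌉₊ : ℕ) : ℝ) ≤ ((⌊(N : ℝ) ^ (1 / 10 : ℝ)⌋₊ : ℕ) : ℝ) := by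
    refine hzu'.trans (le_trans ?_ hxl)
    rw [hNe]
    exact Real.exp_le_exp.2 (by nlinarith)
  have hxp : (0 : ℝ) < ((⌊(N : ℝ) ^ (1 / 10 : ℝ)⌋₊ : ℕ) : ℝ) :=
    lt_of_lt_of_le (Real.rpow_pos_of_pos hNpos _) hxl
  have hzp : (0 : ℝ) < ((⌈Real.exp (s / 40)⌉₊ : ℕ) : ℝ) := by
    have := lt_of_lt_of_le (Real.exp_pos _) hzl
    exact this
  refine ⟨hN1, ?_, hz2, ?_, ?_, ?_, ?_, ?_, ?_, ?_, ?_, hxl, hxu, ?_, ?_⟩
  · -- 1 ≤ K
    rw [Nat.one_le_iff_ne_zero]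
    intro h
    rw [h] at hKl
    have : 400 * s ≤ 0 := by exact_mod_cast hKl
    linarith
  · -- A ≤ x
    refine h2.trans (le_trans ?_ hxl)
    rw [hNe]
    have e1 := Real.add_one_le_exp s
    have e2 : Real.exp s ≤ Real.exp (s ^ 2 * (1 / 11)) := Real.exp_le_exp.2 (by nlinarith)
    linarith
  · exact_mod_cast hzx
  · -- 40 log² z ≤ log x
    have e1 : Real.log ((⌈Real.exp (s / 40)⌉₊ : ℕ) : ℝ) ≤ s / 40 + 1 := by
      rw [Real.log_le_iff_le_exp hzp]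
      exact hzu'
    have e0 : 0 ≤ Real.log ((⌈Real.exp (s / 40)⌉₊ : ℕ) : ℝ) := Real.log_natCast_nonneg _
    have e2 : s ^ 2 * (1 / 11) ≤ Real.log ((⌊(N : ℝ) ^ (1 / 10 : ℝ)⌋₊ : ℕ) : ℝ) := by
      rw [Real.le_log_iff_exp_le hxp, ← hNe]
      exact hxl
    have e3 : Real.log ((⌈Real.exp (s / 40)⌉₊ : ℕ) : ℝ) ^ 2 ≤ (s / 40 + 1) ^ 2 :=
      pow_le_pow_left₀ e0 e1 2
    nlinarith
  · -- N ^ 10 ≤ z ^ K
    have e1 : ((N : ℝ)) ^ 10 = Real.exp (10 * s ^ 2) := by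
      rw [← Real.exp_log hNpos, ← hs2, ← Real.exp_nat_mul]
      norm_num
    have e2 : Real.exp (10 * s ^ 2) ≤
        ((⌈Real.exp (s / 40)⌉₊ : ℕ) : ℝ) ^ ⌈400 * s⌉₊ := by
      calc Real.exp (10 * s ^ 2) ≤ Real.exp (((⌈400 * s⌉₊ : ℕ) : ℝ) * (s / 40)) :=
            Real.exp_le_exp.2 (by nlinarith)
        _ = Real.exp (s / 40) ^ ⌈400 * s⌉₊ := Real.exp_nat_mul _ _
        _ ≤ _ := pow_le_pow_left₀ (Real.exp_pos _).le hzl _
    rw [← e1] at e2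
    exact_mod_cast e2
  · -- (A (1 + log N) K) ^ (100 K) ≤ N ^ τ
    have e1 : A * (1 + s ^ 2) * ((⌈400 * s⌉₊ : ℕ) : ℝ) ≤ Real.exp (τ / 40100 * s) := by
      refine le_trans ?_ h3
      have e2 : ((⌈400 * s⌉₊ : ℕ) : ℝ) ≤ 401 * (1 + s ^ 2) := by nlinarith
      have e3 : (1 + s ^ 2) ^ (2 : ℝ) = (1 + s ^ 2) * (1 + s ^ 2) := by
        rw [Real.rpow_two]; ring
      rw [e3]
      calc A * (1 + s ^ 2) * ((⌈400 * s⌉₊ : ℕ) : ℝ)
          ≤ A * (1 + s ^ 2) * (401 * (1 + s ^ 2)) :=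
            mul_le_mul_of_nonneg_left e2 (by positivity)
        _ = 401 * A * ((1 + s ^ 2) * (1 + s ^ 2)) := by ring
    calc (A * (1 + s ^ 2) * ((⌈400 * s⌉₊ : ℕ) : ℝ)) ^ (100 * ⌈400 * s⌉₊)
        ≤ Real.exp (τ / 40100 * s) ^ (100 * ⌈400 * s⌉₊) :=
          pow_le_pow_left₀ (by positivity) e1 _
      _ = Real.exp (((100 * ⌈400 * s⌉₊ : ℕ) : ℝ) * (τ / 40100 * s)) := (Real.exp_nat_mul _ _).symm
      _ ≤ Real.exp (s ^ 2 * τ) := by
          apply Real.exp_le_exp.2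
          push_cast
          have e4 : ((⌈400 * s⌉₊ : ℕ) : ℝ) * (τ / 40100 * s) ≤ 401 * s * (τ / 40100 * s) :=
            mul_le_mul_of_nonneg_right hKu' (by positivity)
          calc 100 * ((⌈400 * s⌉₊ : ℕ) : ℝ) * (τ / 40100 * s)
              = 100 * (((⌈400 * s⌉₊ : ℕ) : ℝ) * (τ / 40100 * s)) := by ring
            _ ≤ 100 * (401 * s * (τ / 40100 * s)) := by linarith
            _ = s ^ 2 * τ := by ring
      _ = (N : ℝ) ^ τ := (hNe τ).symm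
  · -- A (1 + log N) ^ κ e ≤ 1
    have e1 : Real.exp (1 / 100000 * s) * Real.exp (-(s / 100000)) = 1 := by
      rw [← Real.exp_add]
      have : 1 / 100000 * s + -(s / 100000) = 0 := by ring
      rw [this, Real.exp_zero]
    calc A * (1 + s ^ 2) ^ κ * Real.exp (-(s / 100000))
        ≤ Real.exp (1 / 100000 * s) * Real.exp (-(s / 100000)) :=
          mul_le_mul_of_nonneg_right h4 (Real.exp_pos _).le
      _ = 1 := e1
  · -- A (1 + log N) ^ κ ≤ z ^ (1/4)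
    refine h4.trans ?_
    calc Real.exp (1 / 100000 * s) ≤ Real.exp (s / 40 * (1 / 4)) :=
          Real.exp_le_exp.2 (by linarith)
      _ = Real.exp (s / 40) ^ (1 / 4 : ℝ) := Real.exp_mul _ _
      _ ≤ _ := Real.rpow_le_rpow (Real.exp_pos _).le hzl (by norm_num)
  · -- N ^ (-1/50) ≤ (e / 2) ^ (4 K)
    rw [hNe]
    have e1 : Real.exp (-(s / 100000) - 1) ≤ Real.exp (-(s / 100000)) / 2 := by
      rw [Real.exp_sub]
      exact div_le_div_of_nonneg_left (Real.exp_pos _).le (by norm_num) hexp1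
    calc Real.exp (s ^ 2 * -(1 / 50))
        ≤ Real.exp (((4 * ⌈400 * s⌉₊ : ℕ) : ℝ) * (-(s / 100000) - 1)) := by
          apply Real.exp_le_exp.2
          push_cast
          have e5 : ((⌈400 * s⌉₊ : ℕ) : ℝ) * (s / 100000 + 1) ≤
              (400 * s + 1) * (s / 100000 + 1) :=
            mul_le_mul_of_nonneg_right hKu (by positivity)
          nlinarith
      _ = Real.exp (-(s / 100000) - 1) ^ (4 * ⌈400 * s⌉₊) := Real.exp_nat_mul _ _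
      _ ≤ _ := pow_le_pow_left₀ (Real.exp_pos _).le e1 _
  · -- A (1 + log N) ^ κ ≤ N ^ τ
    rw [hNe]
    refine h6.trans (Real.exp_le_exp.2 ?_)
    have : s ≤ s ^ 2 := by nlinarith
    nlinarith
  · -- 24 K e ≤ 1
    rw [Real.rpow_one] at h5
    have e1 : Real.exp (1 / 100000 * s) * Real.exp (-(s / 100000)) = 1 := by
      rw [← Real.exp_add]
      have : 1 / 100000 * s + -(s / 100000) = 0 := by ring
      rw [this, Real.exp_zero]
    have e2 : 24 * ((⌈400 * s⌉₊ : ℕ) : ℝ) ≤ Real.exp (1 / 100000 * s) := by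
      refine le_trans ?_ h5
      nlinarith
    calc 24 * ((⌈400 * s⌉₊ : ℕ) : ℝ) * Real.exp (-(s / 100000))
        ≤ Real.exp (1 / 100000 * s) * Real.exp (-(s / 100000)) :=
          mul_le_mul_of_nonneg_right e2 (Real.exp_pos _).le
      _ = 1 := e1

end Pool.Agent.Helper19.RD
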